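import Mathlib
import Pool.Agent.Q192.Toep

set_option autoImplicit false

namespace Pool.Agent.Results.MP_3abc29_an.NotSpectralSet

open Pool.Agent.Q192.Toep Pool.Agent.Helper414.CuspStmt
open Pool.Agent.Helper414.Cusp (SimpleClosedCurve RationalSymbol)

/-- There is a rational function `F` without poles on the circle, mapping the circle into a simple
closed curve, such that the spectrum of the Toeplitz operator `T_F` on the Hardy space `H²` is not
a spectral set for `T_F`. -/
theorem result : ∃ F : C(UnitAddCircle, ℂ), RationalSymbol F ∧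
    (∃ Γ : Set ℂ, SimpleClosedCurve Γ ∧ ∀ t, F t ∈ Γ) ∧
    ¬ IsSpectralSet (spectrum ℂ (toeplitz F)) (toeplitz F) :=
  ⟨FF, rational_FF, curve_FF, main_stmt⟩

end Pool.Agent.Results.MP_3abc29_an.NotSpectralSet
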